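import Pool.Agent.L5helper56.LPT.Mono

/-!
# Triangle detection by linear programs: brute force is optimal up to a constant factor

A *monotone linear program* for triangle detection (`MonotoneLP n s γ 𝒢`) is a polyhedron given by `s`
inequalities and any number of equations and variables, and for every pair of vertices an affine
function which is nonnegative on the polyhedron. The objective function of a graph is the sum of the
functions of its edges. Its maximum is at least `1 + γ` for the graphs of the class `𝒢` which contain a
triangle, and at most `1` for the triangle-free graphs of the class. There is nothing else that the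
linear program has to do: the optimal solutions, their values and the functions of the edges are
arbitrary real numbers.

An *LP formulation* (`LPFormulation n s γ 𝒢`), in the sense of the theory of extended formulations, may
use any objective function `obj G ⬝ᵥ y + const G` for the graph `G`, without any relation between the
functions of different graphs, but it is required that for every triple `T` of vertices there is a
feasible point at which the objective function of every `G ∈ 𝒢` counts the edges of `G` in `T`; for the
triangle-free `G ∈ 𝒢` the objective function is at most `3 - γ` on the polyhedron.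

The choice of one of the triples is a monotone linear program with gap `1 / 2` and an LP formulation
with gap `1`, with `n.choose 3` inequalities. We show that for every constant gap the number of
inequalities is at least of order `n ^ 3`, and of order `m ^ (3 / 2)` for the graphs with at most `m`
edges: in these models the exponent `3 / 2` of the algorithm of Itai and Rodeh is optimal, and there is
no analogue of fast matrix multiplication.

Proof idea. By Farkas' lemma the matrix of the slacks of the complete bipartite graphs (between the two
classes of a colouring `χ`) at the points of the triples `T` is a sum of `s + 1` nonnegative matrices of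
rank one. The mass of this matrix on the pairs `(χ, T)` with `T` of one colour is too large, by the gap,
in comparison with its mass on all pairs. For a rank one matrix such a deviation comes only from the
triples of vertices all of which are correlated, with another vertex, under a function `u ≥ 0` of the
colouring; if `u` has mean `μ` there are at most `O (log (1 / μ))` such vertices, by an exponential
moment, so that the deviation is at most `O (μ log (1 / μ) ^ 3)` per triple.
-/

set_option autoImplicit false

open Finset

namespace Pool.Agent.Results.MP_ad5e8e_lc.LPFormulations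

open Pool.Agent.L5helper56.LPT

theorem bip_edges {n : ℕ} (D : Finset (Fin n)) (χ : D → Bool) :
    4 * (bip D χ).edgeSet.ncard ≤ D.card ^ 2 := by
  classical
  let P : Finset D := univ.filter fun a => χ a = true
  let Q : Finset D := univ.filter fun a => ¬ χ a = true
  have h1 : (bip D χ).edgeSet ⊆
      (((P ×ˢ Q).image fun p => s((p.1 : Fin n), (p.2 : Fin n)) : Finset (Sym2 (Fin n))) :
        Set (Sym2 (Fin n))) := by
    intro e
    refine Sym2.ind (fun x y => ?_) e
    rintro ⟨hx, hy, h⟩
    rw [mem_coe, mem_image]
    cases hcx : χ ⟨x, hx⟩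
    · refine ⟨(⟨y, hy⟩, ⟨x, hx⟩), ?_, Sym2.eq_swap⟩
      rw [mem_product]
      refine ⟨mem_filter.2 ⟨mem_univ _, ?_⟩, mem_filter.2 ⟨mem_univ _, ?_⟩⟩
      · cases hcy : χ ⟨y, hy⟩
        · rw [hcx, hcy] at h; exact absurd rfl h
        · rfl
      · simp [hcx]
    · refine ⟨(⟨x, hx⟩, ⟨y, hy⟩), ?_, rfl⟩
      rw [mem_product]
      refine ⟨mem_filter.2 ⟨mem_univ _, hcx⟩, mem_filter.2 ⟨mem_univ _, ?_⟩⟩
      intro hcy
      rw [hcx] at h
      exact h hcy.symm
  have h2 : (bip D χ).edgeSet.ncard ≤ P.card * Q.card := by
    refine (Set.ncard_le_ncard h1 (Finset.finite_toSet _)).trans ?_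
    rw [Set.ncard_coe_finset, ← card_product]
    exact card_image_le
  have h3 : P.card + Q.card = D.card := by
    have := card_filter_add_card_filter_not (s := (univ : Finset D)) (fun a => χ a = true)
    rw [card_univ, Fintype.card_coe] at this
    exact this
  rw [← h3]
  nlinarith [sq_nonneg ((P.card : ℤ) - Q.card), h2, Nat.mul_le_mul_left 4 h2,
    two_mul_le_add_sq P.card Q.card]

theorem tri_edges {n : ℕ} (T : Finset (Fin n)) (hT : T.card = 3) :
    (tri T).edgeSet.ncard ≤ 3 := by
  classical
  have h : (tri T).edgeSet = {e ∈ (tri T).edgeSet | ∀ v ∈ e, v ∈ T} := by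
    ext e
    refine Sym2.ind (fun x y => ?_) e
    constructor
    · intro he
      refine ⟨he, fun v hv => ?_⟩
      obtain ⟨h1, h2, -⟩ := he
      rw [Sym2.mem_iff] at hv
      rcases hv with rfl | rfl
      · exact h1
      · exact h2
    · exact fun he => he.1
  have h2 : (tri T).edgeSet.ncard = inside (tri T) T := congrArg Set.ncard h
  obtain ⟨a, b, c, hab, hac, hbc, rfl⟩ := card_eq_three.1 hT
  rw [h2, inside_triple _ a b c hab hac hbc]
  split_ifs <;> norm_num

/-- (1) Let `D` be a set of vertices such that the class `𝒢` contains the triangles in `D` and the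
complete bipartite graphs `bip D χ` between the two colour classes of all colourings `χ` of `D` with
two colours. Then every monotone linear program with gap `γ` for triangle detection in `𝒢` has
`s ≥ γ ^ 7 |D|.choose 3 / 49152 - 1` inequalities.

(2) Every monotone linear program with gap `γ` for triangle detection in the graphs on `n` vertices
with at most `m` edges has `s ≥ γ ^ 7 k.choose 3 / 49152 - 1` inequalities, for all `k ≤ n` with
`k ^ 2 ≤ 4 m`.

(3) Every LP formulation with gap `γ ≤ 1` of triangle detection in `𝒢` has
`s ≥ 10 ^ (-8) γ ^ 7 |D|.choose 3 - 1` inequalities, if at least `(1 - γ / 24) 2 ^ |D|` of the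
complete bipartite graphs `bip D χ` are in the class `𝒢`.

(4) For all graphs on `n` vertices there is a monotone linear program with gap `1 / 2`, and an LP
formulation with gap `1`, with `n.choose 3` inequalities. -/
theorem result :
    (∀ (n s : ℕ) (γ : ℝ) (𝒢 : Set (SimpleGraph (Fin n))), 0 < γ →
      Nonempty (MonotoneLP n s γ 𝒢) → ∀ D : Finset (Fin n), (∀ χ : D → Bool, bip D χ ∈ 𝒢) →
      (∀ T ⊆ D, T.card = 3 → tri T ∈ 𝒢) →
      γ ^ 7 * (D.card.choose 3 : ℝ) ≤ 49152 * ((s : ℝ) + 1)) ∧
    (∀ (n s m : ℕ) (γ : ℝ), 0 < γ →
      Nonempty (MonotoneLP n s γ {G | G.edgeSet.ncard ≤ m}) → ∀ k : ℕ, k ≤ n →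
      k ^ 2 ≤ 4 * m → γ ^ 7 * (k.choose 3 : ℝ) ≤ 49152 * ((s : ℝ) + 1)) ∧
    (∀ (n s : ℕ) (γ : ℝ) (𝒢 : Set (SimpleGraph (Fin n))), 0 < γ → γ ≤ 1 →
      Nonempty (LPFormulation n s γ 𝒢) → ∀ D : Finset (Fin n),
      (1 - γ / 24) * 2 ^ D.card ≤ ({χ : D → Bool | bip D χ ∈ 𝒢}.ncard : ℝ) →
      γ ^ 7 * (D.card.choose 3 : ℝ) ≤ 10 ^ 8 * ((s : ℝ) + 1)) ∧
    ∀ n : ℕ, Nonempty (MonotoneLP n (n.choose 3) (1 / 2) Set.univ) ∧
      Nonempty (LPFormulation n (n.choose 3) 1 Set.univ) := by
  refine ⟨fun n s γ 𝒢 h0 ⟨F⟩ D hD hDT => mono_lower h0 F D hD hDT,
    fun n s m γ h0 ⟨F⟩ k hk hkm => ?_,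
    fun n s γ 𝒢 h0 h1 ⟨F⟩ D hD => lower h0 h1 F D hD,
    fun n => ⟨mono_upper n (1 / 2) le_rfl, upper n 1 le_rfl⟩⟩
  by_cases hk3 : k < 3
  · rw [Nat.choose_eq_zero_of_lt hk3]
    have : (0 : ℝ) ≤ (s : ℝ) := Nat.cast_nonneg s
    simp only [Nat.cast_zero, mul_zero]
    linarith
  · have hm : 3 ≤ m := by
      push Not at hk3
      nlinarith
    obtain ⟨D, -, hD⟩ := exists_subset_card_eq (s := (univ : Finset (Fin n))) (n := k)
      (by rw [card_univ, Fintype.card_fin]; exact hk)
    have h := mono_lower h0 F D (fun χ => by
        have h2 := bip_edges D χ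
        rw [hD] at h2
        show (bip D χ).edgeSet.ncard ≤ m
        omega)
      (fun T _ hT => (tri_edges T hT).trans hm)
    rw [hD] at h
    exact h

end Pool.Agent.Results.MP_ad5e8e_lc.LPFormulations
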