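import Pool.Agent.L5helper51.WG.Scan

/-!
# Triangle detection by algorithms with wide monotone operations: `(N / √w) ^ 3` up to logarithms

An algorithm (`Alg`) works on an unlimited memory of real numbers (rows of `w` numbers). One
instruction (`Ins`) reads `w` numbers, each of them an entry of the adjacency matrix or of the
memory, and writes `w` numbers, ARBITRARY nondecreasing functions of the numbers read. A test compares
an entry of the input or of the memory with a threshold and branches. `leaves` is the number of
leaves of the resulting tree, `steps` the maximum number of instructions on a path. Here `w = b ^ 2`.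

1. If a probabilistic algorithm of this kind with at most `ℓ` leaves and at most `g` instructions on
   each path tells for every graph with `N` vertices whether it has a triangle, with probability at
   least `1 / 2 + 1 / q`, then `N ^ 3 ≤ 10 ^ 9 (ℓ q) ^ 5 g (b log₂ N) ^ 3`.
2. For every `b`, `(⌊N / b⌋ + 1) ^ 3` instructions which read and write `4 b ^ 2` numbers and one
   test (at the end) are enough.
3. A machine with `r ≤ b ^ 2` registers, which in each step reads one entry of the adjacency matrix
   and replaces the contents of ALL registers by arbitrary nondecreasing functions of the old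
   contents and of this entry, needs `T` steps with
   `N ^ 3 ≤ 10 ^ 13 (⌊T / b ^ 2⌋ + 1) (b log₂ N) ^ 3`, so `T √r ≥ N ^ 3 / polylog N`.

So for word operations on `w = s ^ ρ` numbers (`s` the size `N ^ 2` of the input) the exponent of
the number of operations is exactly `3 / 2 (1 - ρ)`, superlinear for `ρ < 1 / 3`, and the exponent of
the time with memory `s ^ ρ` is at least `3 / 2 - ρ / 2`, superlinear for all `ρ < 1`.

Proof. Approximators (Razborov, Alon-Boppana): each place of the memory is approximated by the
maximum of a constant and of values of few edges (`4 L ^ 2`, `L ≈ 8 log N`), defined by quantiles over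
the random complete bipartite graphs. A triangle is lost at an instruction if it becomes visible by
two or three of its edges. If its third pair is not one of the few active pairs then the new path of
length two contains a pair of a set of `54 L ^ 2` pairs for each output: otherwise many independent
paths would raise the constant or the value of an edge (sunflowers with an empty core, a vertex, or
an edge; the core consisting of both ends of the path is not excluded but gives only few pairs). So the lost
triangles are triangles of a graph with `O (w L ^ 2)` edges, and their number is `O (√w L) ^ 3`. A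
chain of disjoint blocks handles the tests: on some block nearly no bipartite graph changes the leaf.
-/

namespace Pool.Agent.Results.MP_ad5e8e_lc.MonotoneWordAlgorithms

open Pool.Agent.L5helper51.WG

open Classical in
theorem result :
    (∀ N b g ℓ q : ℕ, 2 ≤ N → 1 ≤ b → 1 ≤ g → 1 ≤ q →
      ∀ (Ω : Type) [Fintype Ω] (p : Ω → ℝ), (∀ ω, 0 ≤ p ω) → ∑ ω, p ω = 1 →
      ∀ (A : Ω → Alg (Fin N × Fin N) (b ^ 2) Bool) (σ : Ω → Mem (b ^ 2)),
        (∀ ω, (A ω).leaves ≤ ℓ ∧ (A ω).steps ≤ g) →
        (∀ G : SimpleGraph (Fin N), (1 : ℝ) / 2 + 1 / q ≤ ∑ ω ∈ Finset.univ.filter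
          (fun ω => ((A ω).run (adj G) (σ ω)).1 = true ↔ ¬ G.CliqueFree 3), p ω) →
        N ^ 3 ≤ 10 ^ 9 * (ℓ * q) ^ 5 * g * (b * Nat.log 2 N) ^ 3) ∧
    (∀ N b : ℕ, 1 ≤ b → ∃ A : Alg (Fin N × Fin N) (4 * b ^ 2) Bool,
      A.leaves = 2 ∧ A.steps ≤ (N / b + 1) ^ 3 ∧
      ∀ G : SimpleGraph (Fin N), (A.run (adj G) (fun _ _ => 0)).1 = true ↔ ¬ G.CliqueFree 3) ∧
    (∀ N b r T : ℕ, 2 ≤ N → 1 ≤ b → ∀ hr : 0 < r, r ≤ b ^ 2 →
      ∀ l : List (Stp (Fin N × Fin N) r), l.length ≤ T → ∀ (s0 : Fin r → ℝ) (θ : ℝ),
        (∀ G : SimpleGraph (Fin N), θ ≤ scan (adj G) l s0 ⟨0, hr⟩ ↔ ¬ G.CliqueFree 3) →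
        N ^ 3 ≤ 10 ^ 13 * (T / b ^ 2 + 1) * (b * Nat.log 2 N) ^ 3) :=
  ⟨fun _ _ _ _ _ hN hb hg hq _ _ p hp hp1 A σ hA hc =>
      tri_lower hN hb le_rfl hg hq p hp hp1 A σ hA hc,
    fun N b hb => tri_upper N b hb,
    fun _ _ _ _ hN hb hr0 hr l hT s0 θ hc => scan_lower hN hb hr hr0 l hT s0 θ hc⟩

end Pool.Agent.Results.MP_ad5e8e_lc.MonotoneWordAlgorithms
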