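import Pool.Agent.L5helper87.TD.Up

/-!
# Triangle detection by symmetric circuits: brute force is exactly optimal

The gates of our circuits compute arbitrary symmetric Boolean functions of unbounded fan-in (threshold
and modular gates, for instance), and there is no bound on the depth or the number of wires. The input
is the adjacency matrix. A circuit is symmetric if every renaming of the vertices extends to an
automorphism of the circuit.

For `n ≥ 300` the least number of gates of a symmetric circuit that detects triangles in graphs with `n`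
vertices is exactly `n.choose 3 + 1`, the size of the naive circuit. The lower bound holds for circuits
which are symmetric on a set `D` of vertices only, for random circuits with bounded error, and for
regular graphs of every even degree between `4` and `|D| / 3`, that is, at all densities. So a faster
method, such as fast matrix multiplication, has to break the symmetry between the vertices.

Proof idea. By the support theorem for subgroups of small index of the symmetric group (library
`L5helper42/Sym`) each gate of a smaller circuit depends only on two vertices, up to automorphisms;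
averaging over the even permutations shows that such gates cannot distinguish two regular graphs of
the same degree.
-/

set_option autoImplicit false

open Finset

namespace Pool.Agent.Results.MP_ad5e8e_lc.SymmetricCircuits

open Pool.Agent.L5helper42.Sym Pool.Agent.L5helper87.TD

open Classical in
/-- (1) Circuits that are symmetric on `D`, `|D| ≥ 300`, with at most `|D|.choose 3` gates give the same
answer for all graphs on `D` which are regular of the same degree. (2) Random circuits that are
symmetric on `D` and that detect triangles with error probability at most `ε` in the graphs on `D` that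
are regular of degree `2 j`, where `2 ≤ j ≤ |D| / 6`, have at least `(1 - 2 ε) (|D|.choose 3 + 1)` gates on
average. (3) For `n ≥ 300` the least number of gates of a symmetric circuit that detects triangles in
graphs with `n` vertices is `n.choose 3 + 1`. -/
theorem result :
    (∀ (n s : ℕ) (D : Finset (Fin n)) (C : Circ (Sym2 (Fin n)) s), 300 ≤ D.card →
      SymmetricOn C D → s ≤ D.card.choose 3 → ∀ (d : ℕ) (G H : SimpleGraph (Fin n)),
        RegularOn D d G → RegularOn D d H → C.val (bits G) C.out = C.val (bits H) C.out) ∧
    (∀ (n : ℕ) (D : Finset (Fin n)) (j : ℕ), 300 ≤ D.card → 2 ≤ j → 6 * j ≤ D.card →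
      ∀ (Ω : Type) [Fintype Ω] (μ : Ω → ℝ), (∀ ω, 0 ≤ μ ω) → ∑ ω, μ ω = 1 →
      ∀ (s : Ω → ℕ) (C : ∀ ω, Circ (Sym2 (Fin n)) (s ω)), (∀ ω, SymmetricOn (C ω) D) → ∀ ε : ℝ,
        (∀ G : SimpleGraph (Fin n), RegularOn D (2 * j) G →
          ∑ ω, (if (C ω).val (bits G) (C ω).out = true ↔ HasTriangle G then 0 else μ ω) ≤ ε) →
        (1 - 2 * ε) * (D.card.choose 3 + 1) ≤ ∑ ω, μ ω * s ω) ∧
    (∀ n : ℕ, 300 ≤ n → IsLeast {s : ℕ | ∃ C : Circ (Sym2 (Fin n)) s, SymmetricOn C univ ∧
      ∀ G : SimpleGraph (Fin n), C.val (bits G) C.out = true ↔ HasTriangle G} (n.choose 3 + 1)) := by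
  have h2 : ∀ (n : ℕ) (D : Finset (Fin n)) (j : ℕ), 300 ≤ D.card → 2 ≤ j → 6 * j ≤ D.card →
      ∀ (Ω : Type) [Fintype Ω] (μ : Ω → ℝ), (∀ ω, 0 ≤ μ ω) → ∑ ω, μ ω = 1 →
      ∀ (s : Ω → ℕ) (C : ∀ ω, Circ (Sym2 (Fin n)) (s ω)), (∀ ω, SymmetricOn (C ω) D) → ∀ ε : ℝ,
        (∀ G : SimpleGraph (Fin n), RegularOn D (2 * j) G →
          ∑ ω, (if (C ω).val (bits G) (C ω).out = true ↔ HasTriangle G then 0 else μ ω) ≤ ε) →
        (1 - 2 * ε) * (D.card.choose 3 + 1) ≤ ∑ ω, μ ω * s ω := by
    intro n D j hD hj hjD Ω _ μ hμ hμ1 s C hC ε herr
    obtain ⟨⟨G, hG, hGt⟩, ⟨H, hH, hHt⟩⟩ := exists_pair (D := D) hj hjD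
    have hpt : ∀ ω, μ ω * (D.card.choose 3 + 1) ≤ μ ω * s ω +
        ((if (C ω).val (bits G) (C ω).out = true ↔ HasTriangle G then 0 else μ ω) +
          (if (C ω).val (bits H) (C ω).out = true ↔ HasTriangle H then 0 else μ ω)) *
            (D.card.choose 3 + 1) := by
      intro ω
      have hN : (0 : ℝ) ≤ (D.card.choose 3 : ℝ) + 1 := by positivity
      by_cases hs : s ω ≤ D.card.choose 3
      · have h1 := same_output hD hs (C ω) (hC ω) hG hH
        have h3 : μ ω ≤ (if (C ω).val (bits G) (C ω).out = true ↔ HasTriangle G then 0 else μ ω) +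
            (if (C ω).val (bits H) (C ω).out = true ↔ HasTriangle H then 0 else μ ω) := by
          by_cases hv : (C ω).val (bits G) (C ω).out = true
          · have hv' : (C ω).val (bits H) (C ω).out = true := by rw [← h1]; exact hv
            have e1 : ¬ ((C ω).val (bits H) (C ω).out = true ↔ HasTriangle H) := fun h =>
              hHt (h.1 hv')
            rw [if_neg e1]
            have := hμ ω
            split_ifs <;> linarith
          · have e1 : ¬ ((C ω).val (bits G) (C ω).out = true ↔ HasTriangle G) := fun h =>
              hv (h.2 hGt)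
            rw [if_neg e1]
            have := hμ ω
            split_ifs <;> linarith
        have h4 : 0 ≤ μ ω * s ω := mul_nonneg (hμ ω) (Nat.cast_nonneg _)
        have h5 := mul_le_mul_of_nonneg_right h3 hN
        linarith
      · push Not at hs
        have h3 : ((D.card.choose 3 : ℝ) + 1) ≤ s ω := by exact_mod_cast hs
        have h4 := mul_le_mul_of_nonneg_left h3 (hμ ω)
        have h5 : 0 ≤ ((if (C ω).val (bits G) (C ω).out = true ↔ HasTriangle G then 0 else μ ω) +
          (if (C ω).val (bits H) (C ω).out = true ↔ HasTriangle H then 0 else μ ω)) *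
            ((D.card.choose 3 : ℝ) + 1) := by
          refine mul_nonneg (add_nonneg ?_ ?_) hN
          · have := hμ ω
            split_ifs <;> linarith
          · have := hμ ω
            split_ifs <;> linarith
        linarith
    have hsum := Finset.sum_le_sum fun ω (_ : ω ∈ univ) => hpt ω
    rw [← Finset.sum_mul, hμ1, Finset.sum_add_distrib, ← Finset.sum_mul, Finset.sum_add_distrib] at hsum
    have e1 := herr G hG
    have e2 := herr H hH
    have hN : (0 : ℝ) ≤ (D.card.choose 3 : ℝ) + 1 := by positivity
    have e3 := mul_le_mul_of_nonneg_right (add_le_add e1 e2) hN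
    linarith
  refine ⟨fun n s D C hD hC hs d G H hG hH => same_output hD hs C hC hG hH, h2,
    fun n hn => ⟨⟨naive n, naive_symmetric n univ, naive_correct n⟩, ?_⟩⟩
  rintro s ⟨C, hC, hcor⟩
  have hcard : (univ : Finset (Fin n)).card = n := by rw [card_univ, Fintype.card_fin]
  have h3 := h2 n univ 2 (by rwa [hcard]) le_rfl (by rw [hcard]; omega) Unit (fun _ => 1)
    (fun _ => zero_le_one) (by simp) (fun _ => s) (fun _ => C) (fun _ => hC) 0 (fun G _ => by
      rw [Finset.sum_eq_zero]
      intro ω _
      rw [if_pos (hcor G)])
  rw [hcard] at h3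
  simp only [mul_zero, sub_zero, one_mul, univ_unique, sum_const, card_singleton, one_smul] at h3
  exact_mod_cast h3

end Pool.Agent.Results.MP_ad5e8e_lc.SymmetricCircuits
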