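import Mathlib
import Pool.Agent.L5helper18.TC.Stage
import Pool.Agent.L5helper32.TC.Stage2
import Pool.Agent.L5helper32.TC.Gate3
import Pool.Agent.L5helper32.TC.PreStage
import Pool.Agent.L5helper32.TC.Final

/-!
Triangle detection in graphs with `N` vertices needs `N ^ (2 + 32 ^ (-d))` wires in circuits of
depth `d` whose gates are threshold gates with arbitrary real weights, arbitrary gates with few
wires, and ANDs and ORs with arbitrary negations, which count once each whatever their fan-in; even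
if the circuit is correct only on graphs with at most one triangle.
-/

namespace Pool.Agent.Results.MP_ad5e8e_lc.ThresholdCircuits

open Pool.Agent.L5helper32.TC

theorem result :
    (∀ (N d κ : ℕ), 3 ≤ N → ∀ (C : Circuit (Fin N × Fin N)) (B : Finset (Fin C.size)),
      Detects N d κ C B →
      (N : ℝ) ≤ (10 ^ 11 * (1 + Nat.log 2 B.card) ^ 2 *
        ((C.cost B : ℝ) / N ^ 2 + κ + 1)) ^ (31 ^ d)) ∧
    ∀ d : ℕ, ∃ N₀ : ℕ, ∀ N : ℕ, N₀ ≤ N → ∀ κ : ℕ, (κ : ℝ) ≤ (N : ℝ) ^ ((1 : ℝ) / 32 ^ d) →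
      ∀ (C : Circuit (Fin N × Fin N)) (B : Finset (Fin C.size)), Detects N d κ C B →
      (N : ℝ) ^ (2 + (1 : ℝ) / 32 ^ d) ≤ C.cost B :=
  final (stage_of_stage2 (stage2_of_gateProb gateProb)) preStmt

end Pool.Agent.Results.MP_ad5e8e_lc.ThresholdCircuits
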